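import Pool.Agent.H9.AK.Twin
import Pool.Agent.H34.WMC.SUM
import Pool.Agent.H62.WMC.WMP

/-!
Similar spaces and weight-monodromy; composition of base changes (MP_d037d4_ag).
-/

noncomputable section

namespace Pool.H9.AK

open CategoryTheory CategoryTheory.Limits AlgebraicGeometry Pool.H9.WMC

section FN
variable {Ω : Type} [Field Ω] [CharZero Ω]

theorem FN.Sim.wm [IsAlgClosed Ω] {q q' : ℕ} {M : FN q Ω} {M' : FN q' Ω} (hq : 1 < q)
    (hq' : 1 < q') (h : FN.Sim M M') {w : ℤ} (hw : M'.WM w) : M.WM w := by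
  rw [Pool.WMC.wmp_thm hq] 
  rw [Pool.WMC.wmp_thm hq'] at hw
  obtain ⟨m, n, c, e, hm, hn, hqq, hc, hF, hN⟩ := h
  refine Pool.WMC.sum_thm hq hq' M M' ⟨m, n, c, e, e.symm, hm, hn, hqq, hc, ?_, hF, ?_, hN, ?_⟩ w hw
  · intro x
    exact e.symm_apply_apply x
  · intro y
    apply e.injective
    have h1 := hF (e.symm y)
    rw [e.apply_symm_apply] at h1
    change e (e.symm ((M'.F ^ n) y)) = e ((M.F ^ m) (e.symm y))
    rw [e.apply_symm_apply, h1]
  · intro y
    apply e.injective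
    have h1 := hN (e.symm y)
    rw [e.apply_symm_apply] at h1
    change e (e.symm (c • M'.N y)) = e (M.N (e.symm y))
    rw [e.apply_symm_apply, h1]

theorem FN.Sim.trans {q q' q'' : ℕ} {M : FN q Ω} {M' : FN q' Ω} {M'' : FN q'' Ω}
    (h : FN.Sim M M') (h' : FN.Sim M' M'') : FN.Sim M M'' := by
  obtain ⟨m, n, c, e, hm, hn, hqq, hc, hF, hN⟩ := h
  obtain ⟨m', n', c', e', hm', hn', hqq', hc', hF', hN'⟩ := h'
  refine ⟨m * m', n * n', c * c', e.trans e', Nat.mul_pos hm hm', Nat.mul_pos hn hn', ?_,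
    mul_ne_zero hc hc', ?_, ?_⟩
  · rw [pow_mul, hqq, ← pow_mul, mul_comm n m', pow_mul, hqq', ← pow_mul, mul_comm]
  · have h1 : ∀ (k : ℕ) (x : M.V), e (((M.F ^ m) ^ k) x) = ((M'.F ^ n) ^ k) (e x) := by
      intro k
      induction k with
      | zero => intro x; rfl
      | succ k ih =>
        intro x
        rw [pow_succ, pow_succ, Module.End.mul_apply, Module.End.mul_apply, ih, hF]
    have h2 : ∀ (k : ℕ) (x : M'.V), e' (((M'.F ^ m') ^ k) x) = ((M''.F ^ n') ^ k) (e' x) := by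
      intro k
      induction k with
      | zero => intro x; rfl
      | succ k ih =>
        intro x
        rw [pow_succ, pow_succ, Module.End.mul_apply, Module.End.mul_apply, ih, hF']
    intro x
    change e' (e ((M.F ^ (m * m')) x)) = (M''.F ^ (n * n')) (e' (e x))
    rw [pow_mul, h1, ← pow_mul, mul_comm n m', pow_mul, h2, ← pow_mul, mul_comm n' n]
  · intro x
    change e' (e (M.N x)) = (c * c') • M''.N (e' (e x))
    rw [hN, map_smul, hN', smul_smul]

end FN

theorem LF.one_lt_q (L : LF) : 1 < L.q :=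
  Finite.one_lt_card

/-- The fibre of a smooth proper morphism. -/
def fib {S X : Scheme.{0}} (f : X ⟶ S) [Smooth f] [IsProper f] {R : Type} [CommRing R]
    (s : Spec (CommRingCat.of R) ⟶ S) : Fam R where
  X := pullback f s
  f := pullback.snd _ _
  smooth := inferInstance
  proper := inferInstance

theorem fib_fib {S T X : Scheme.{0}} (f : X ⟶ S) [Smooth f] [IsProper f] (g : T ⟶ S) {R : Type}
    [CommRing R] (s : Spec (CommRingCat.of R) ⟶ T) :
    (fib (pullback.snd f g) s).Iso (fib f (s ≫ g)) :=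
  ⟨pullbackLeftPullbackSndIso f g s, pullbackLeftPullbackSndIso_hom_snd f g s⟩

theorem Fam.map_map {R S T : Type} [CommRing R] [CommRing S] [CommRing T] (Y : Fam R)
    (φ : R →+* S) (ψ : S →+* T) : ((Y.map φ).map ψ).Iso (Y.map (ψ.comp φ)) := by
  have h : Spec.map (CommRingCat.ofHom (ψ.comp φ)) =
      Spec.map (CommRingCat.ofHom ψ) ≫ Spec.map (CommRingCat.ofHom φ) := by
    rw [← Spec.map_comp]
    rfl
  have h1 := fib_fib Y.f (Spec.map (CommRingCat.ofHom φ)) (Spec.map (CommRingCat.ofHom ψ))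
  rw [← h] at h1
  exact h1

theorem Fam.Iso.symm {R : Type} [CommRing R] {Y Y' : Fam R} (h : Y.Iso Y') : Y'.Iso Y := by
  obtain ⟨e, he⟩ := h
  exact ⟨e.symm, by rw [← he]; simp⟩

end Pool.H9.AK

end
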