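import Pool.Agent.H9.AK.Defs

/-!
Every arc in a chart has a twin over a power series ring (MP_d037d4_ag).
-/

noncomputable section

namespace Pool.H9.AK

open CategoryTheory CategoryTheory.Limits AlgebraicGeometry Pool.H9.WMC

/-- The power series ring over a finite field. -/
def LF.pow (k : Type) [Field k] [Finite k] : LF where
  O := PowerSeries k
  cpl := by
    rw [PowerSeries.maximalIdeal_eq_span_X]
    infer_instance
  fin := by
    have h : Function.Surjective
        ((IsLocalRing.residue (PowerSeries k)).comp (PowerSeries.C (R := k))) := by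
      intro x
      obtain ⟨y, rfl⟩ := IsLocalRing.residue_surjective x
      refine ⟨PowerSeries.constantCoeff y, ?_⟩
      rw [RingHom.comp_apply, ← sub_eq_zero, ← map_sub, IsLocalRing.residue_eq_zero_iff,
        PowerSeries.maximalIdeal_eq_span_X, Ideal.mem_span_singleton, PowerSeries.X_dvd_iff]
      simp
    exact Finite.of_surjective _ h

/-- Lifting over étale algebras to power series. -/
theorem exists_lift {S R k : Type} [CommRing S] [CommRing R] [Field k] [Algebra S R]
    [Algebra.FormallySmooth S R] (β : S →+* PowerSeries k) (r : R →+* k)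
    (h : ∀ x, r (algebraMap S R x) = PowerSeries.constantCoeff (β x)) :
    ∃ γ : R →+* PowerSeries k, (∀ x, γ (algebraMap S R x) = β x) ∧
      ∀ x, PowerSeries.constantCoeff (γ x) = r x := by
  let _ : Algebra S (PowerSeries k) := β.toAlgebra
  let I : Ideal (PowerSeries k) := Ideal.span {PowerSeries.X}
  let τ : k →+* PowerSeries k ⧸ I := (Ideal.Quotient.mk I).comp PowerSeries.C
  have hτ : ∀ y : PowerSeries k, Ideal.Quotient.mk I y = τ (PowerSeries.constantCoeff y) := by
    intro y
    rw [RingHom.comp_apply, Ideal.Quotient.eq, Ideal.mem_span_singleton, PowerSeries.X_dvd_iff]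
    simp
  have hI : Nontrivial (PowerSeries k ⧸ I) := by
    rw [Ideal.Quotient.nontrivial_iff, Ne, Ideal.eq_top_iff_one, Ideal.mem_span_singleton,
      PowerSeries.X_dvd_iff]
    simp
  have hτi : Function.Injective τ := τ.injective
  let f : R →ₐ[S] PowerSeries k ⧸ I :=
    { τ.comp r with
      commutes' := by
        intro x
        change τ (r (algebraMap S R x)) = Ideal.Quotient.mk I (β x)
        rw [h, hτ] }
  obtain ⟨g, hg⟩ := Algebra.FormallySmooth.exists_mkₐ_comp_eq_of_isAdicComplete (I := I) f
  refine ⟨g.toRingHom, fun x => ?_, fun x => ?_⟩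
  · exact g.commutes x
  · apply hτi
    rw [← hτ]
    exact congrArg (fun u => u x) hg

theorem pow_eq_zero_iff_of_pos' {R : Type} [CommRing R] [IsDomain R] {x : R} {n : ℕ}
    (h : x ^ n = 0) : x = 0 := by
  by_contra h1
  exact pow_ne_zero n h1 h

theorem isUnit_k {L : LF} {x : L.O} : IsUnit x ↔ IsLocalRing.residue L.O x ≠ 0 := by
  rw [Ne, IsLocalRing.residue_eq_zero_iff, IsLocalRing.mem_maximalIdeal, mem_nonunits_iff, not_not]

theorem twin {A : Type} [CommRing A] {M : ℕ} (c : Chart A M) (L : LF) (a : c.Arc L) :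
    ∃ a' : c.Arc (LF.pow L.k), a.Twin a' := by
  classical
  obtain ⟨ϖ, hϖ⟩ := IsDiscreteValuationRing.exists_irreducible L.O
  -- the images of the coordinates
  have hne : ∀ i ∈ c.D, a.α (c.t i) ≠ 0 := by
    intro i hi h0
    have h1 : IsUnit (algebraMap c.R c.U (∏ i ∈ c.D, c.t i)) :=
      IsLocalization.Away.algebraMap_isUnit _
    have h2 := h1.map a.σ
    have h3 : a.σ (algebraMap c.R c.U (∏ i ∈ c.D, c.t i)) =
        algebraMap L.O L.K (a.α (∏ i ∈ c.D, c.t i)) := by
      exact congrArg (fun u => u (∏ i ∈ c.D, c.t i)) a.comm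
    rw [h3, map_prod, Finset.prod_eq_zero hi h0, map_zero] at h2
    exact not_isUnit_zero h2
  have hun : ∀ i : Fin c.n, ∃ (v : ℕ) (u : L.O), i ∈ c.D → IsUnit u ∧ a.α (c.t i) = u * ϖ ^ v := by
    intro i
    by_cases hi : i ∈ c.D
    · obtain ⟨v, u, h⟩ := IsDiscreteValuationRing.eq_unit_mul_pow_irreducible (hne i hi) hϖ
      exact ⟨v, u, fun _ => ⟨u.isUnit, h⟩⟩
    · exact ⟨0, 1, fun h => absurd h hi⟩
  choose v u hu using hun
  let r : c.R →+* L.k := (IsLocalRing.residue L.O).comp a.α
  let S := MvPolynomial (Fin c.n) (Localization.Away (M : ℤ))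
  let r0 : Localization.Away (M : ℤ) →+* L.k := (r.comp (algebraMap S c.R)).comp MvPolynomial.C
  let β : S →+* PowerSeries L.k := MvPolynomial.eval₂Hom
    ((PowerSeries.C (R := L.k)).comp r0) (fun i => if i ∈ c.D then
      PowerSeries.C (IsLocalRing.residue L.O (u i)) * PowerSeries.X ^ v i
      else PowerSeries.C (r (c.t i)))
  have hβ : ∀ x, r (algebraMap S c.R x) = PowerSeries.constantCoeff (β x) := by
    intro x
    have h : r.comp (algebraMap S c.R) = (PowerSeries.constantCoeff (R := L.k)).comp β := by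
      apply MvPolynomial.ringHom_ext
      · intro y
        simp [β, r0]
      · intro i
        by_cases hi : i ∈ c.D
        · have h1 := (hu i hi).2
          have h2 : IsLocalRing.residue L.O ϖ = 0 := by
            rw [IsLocalRing.residue_eq_zero_iff, IsLocalRing.mem_maximalIdeal, mem_nonunits_iff]
            exact hϖ.not_isUnit
          have h3 : r (algebraMap S c.R (MvPolynomial.X i)) =
              IsLocalRing.residue L.O (u i * ϖ ^ v i) := by
            rw [← h1]
            rfl
          simp [β, hi, h3, h2]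
        · simp [β, hi, Chart.t, S]
    exact congrArg (fun w => w x) h
  obtain ⟨γ, hγ, hγr⟩ := exists_lift (S := MvPolynomial (Fin c.n) (Localization.Away (M : ℤ)))
    (R := c.R) (k := L.k) β r hβ
  let L' := LF.pow L.k
  have hct : ∀ i ∈ c.D, γ (c.t i) =
      PowerSeries.C (IsLocalRing.residue L.O (u i)) * PowerSeries.X ^ v i := by
    intro i hi
    have h := hγ (MvPolynomial.X i)
    simp only [β, MvPolynomial.coe_eval₂Hom, MvPolynomial.eval₂_X, hi, if_true] at h
    exact h
  have hres : ∀ i ∈ c.D, IsLocalRing.residue L.O (u i) ≠ 0 := fun i hi =>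
    isUnit_k.1 (hu i hi).1
  have hne' : ∀ i ∈ c.D, γ (c.t i) ≠ 0 := by
    intro i hi h2
    rw [hct i hi] at h2
    rcases mul_eq_zero.1 h2 with h3 | h3
    · exact hres i hi ((map_eq_zero_iff _ PowerSeries.C_injective).1 h3)
    · exact PowerSeries.X_ne_zero (pow_eq_zero_iff_of_pos' h3)
  have hprod0 : γ (∏ i ∈ c.D, c.t i) ≠ 0 := by
    rw [map_prod]
    exact Finset.prod_ne_zero_iff.2 hne'
  let γ' : c.R →+* L'.O := γ
  have hprod : IsUnit (((algebraMap L'.O L'.K).comp γ') (∏ i ∈ c.D, c.t i)) := by
    rw [isUnit_iff_ne_zero, RingHom.comp_apply]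
    intro h0
    exact hprod0 ((map_eq_zero_iff _ (IsFractionRing.injective L'.O L'.K)).1 h0)
  let a' : c.Arc L' :=
    { α := γ'
      σ := IsLocalization.Away.lift (∏ i ∈ c.D, c.t i) hprod
      comm := by
        ext x
        simp only [RingHom.comp_apply, IsLocalization.Away.lift_eq] }
  have h1 : Function.Surjective (PowerSeries.constantCoeff (R := L.k)) := fun x =>
    ⟨PowerSeries.C x, PowerSeries.constantCoeff_C x⟩
  refine ⟨a', L.k, inferInstance, IsLocalRing.residue L.O, PowerSeries.constantCoeff (R := L.k), ϖ,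
    PowerSeries.X, IsLocalRing.residue_surjective, h1, hϖ,
    PowerSeries.X_irreducible, fun x => (hγr x).symm, fun i hi => ?_⟩
  exact ⟨v i, u i, PowerSeries.C (IsLocalRing.residue L.O (u i)), (hu i hi).1, (hu i hi).2,
    hct i hi, (PowerSeries.constantCoeff_C _).symm⟩

end Pool.H9.AK

end
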