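import Mathlib
import Pool.Agent.H9.WMC.Lin

/-!
Families of smooth proper schemes and their cohomology over local fields (MP_d037d4_ag).
-/

noncomputable section

namespace Pool.H9.AK

open CategoryTheory CategoryTheory.Limits AlgebraicGeometry Pool.H9.WMC

/-! ### Families -/

/-- A smooth proper scheme over (the spectrum of) the commutative ring `R`. -/
structure Fam (R : Type) [CommRing R] where
  /-- The total space. -/
  X : Scheme.{0}
  /-- The structure morphism. -/
  f : X ⟶ Spec (CommRingCat.of R)
  smooth : Smooth f
  proper : IsProper f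

attribute [instance] Fam.smooth Fam.proper

/-- Base change along a ring homomorphism. -/
def Fam.map {R S : Type} [CommRing R] [CommRing S] (Y : Fam R) (φ : R →+* S) :
    Fam S where
  X := pullback Y.f (Spec.map (CommRingCat.ofHom φ))
  f := pullback.snd _ _
  smooth := inferInstance
  proper := inferInstance

/-- Isomorphic over the base. -/
def Fam.Iso {R : Type} [CommRing R] (Y Y' : Fam R) : Prop :=
  ∃ e : Y.X ≅ Y'.X, e.hom ≫ Y'.f = Y.f

/-! ### Local fields -/

/-- A complete discrete valuation ring with finite residue field, that is, the ring of integers of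
a nonarchimedean local field. -/
structure LF where
  /-- The ring. -/
  O : Type
  [ring : CommRing O]
  [dom : IsDomain O]
  [dvr : IsDiscreteValuationRing O]
  [cpl : IsAdicComplete (IsLocalRing.maximalIdeal O) O]
  [fin : Finite (IsLocalRing.ResidueField O)]

attribute [instance] LF.ring LF.dom LF.dvr LF.cpl LF.fin

/-- The local field. -/
abbrev LF.K (L : LF) : Type := FractionRing L.O

/-- The residue field. -/
abbrev LF.k (L : LF) : Type := IsLocalRing.ResidueField L.O

/-- The number of elements of the residue field. -/
def LF.q (L : LF) : ℕ := Nat.card L.k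

/-- `L'` is a finite extension of `L`, with the given maps of the rings of integers and of the
fields. -/
structure LF.Ext (L L' : LF) where
  /-- The map of the rings of integers. -/
  φ : L.O →+* L'.O
  /-- The map of the fields. -/
  κ : L.K →+* L'.K
  fin : φ.Finite
  comm : κ.comp (algebraMap L.O L.K) = (algebraMap L'.O L'.K).comp φ

/-! ### Cohomology spaces -/

section FN
variable {Ω : Type} [Field Ω] [CharZero Ω]

/-- `M` and `M'` are isomorphic after replacing the Frobenius maps by positive powers and the
monodromy operators by nonzero multiples. -/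
def FN.Sim {q q' : ℕ} (M : FN q Ω) (M' : FN q' Ω) : Prop :=
  ∃ (m n : ℕ) (c : Ω) (e : M.V ≃ₗ[Ω] M'.V), 0 < m ∧ 0 < n ∧ q ^ m = q' ^ n ∧ c ≠ 0 ∧
    (∀ x, e ((M.F ^ m) x) = (M'.F ^ n) (e x)) ∧ ∀ x, e (M.N x) = c • M'.N (e x)

end FN

/-! ### Charts and arcs -/

/-- A chart over `ℤ[1/M]` of a compactification of a scheme over `Spec A`: a ring `R`, étale over
`ℤ[1/M][T_1, ..., T_n]`, the boundary `∏ i ∈ D, T_i = 0` (a divisor with strict normal crossings
relative to `ℤ[1/M]`), and a morphism from the complement of the boundary to `Spec A`. -/
structure Chart (A : Type) [CommRing A] (M : ℕ) where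
  /-- The number of coordinates. -/
  n : ℕ
  /-- The ring. -/
  R : Type
  [ring : CommRing R]
  [alg : Algebra (MvPolynomial (Fin n) (Localization.Away (M : ℤ))) R]
  [etale : Algebra.Etale (MvPolynomial (Fin n) (Localization.Away (M : ℤ))) R]
  /-- The coordinates which define the boundary. -/
  D : Finset (Fin n)
  /-- The morphism from the complement of the boundary to `Spec A`. -/
  ψ : A →+* Localization.Away
    (∏ i ∈ D, algebraMap (MvPolynomial (Fin n) (Localization.Away (M : ℤ))) R (MvPolynomial.X i))

attribute [instance] Chart.ring Chart.alg Chart.etale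

variable {A : Type} [CommRing A] {M : ℕ}

/-- The coordinates. -/
def Chart.t (c : Chart A M) (i : Fin c.n) : c.R :=
  algebraMap (MvPolynomial (Fin c.n) (Localization.Away (M : ℤ))) c.R (MvPolynomial.X i)

/-- The ring of the complement of the boundary. -/
abbrev Chart.U (c : Chart A M) : Type := Localization.Away (∏ i ∈ c.D, c.t i)

/-- An arc: a morphism from the spectrum of a complete discrete valuation ring to the chart, which
maps the generic point to the complement of the boundary. -/
structure Chart.Arc (c : Chart A M) (L : LF) where
  /-- The arc. -/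
  α : c.R →+* L.O
  /-- The generic point of the arc. -/
  σ : c.U →+* L.K
  comm : σ.comp (algebraMap c.R c.U) = (algebraMap L.O L.K).comp α

/-- The point of `Spec A` with values in the local field given by an arc. -/
def Chart.Arc.pt {c : Chart A M} {L : LF} (a : c.Arc L) : A →+* L.K := a.σ.comp c.ψ

/-- Two arcs over discrete valuation rings with the same residue field have the same closed point,
and meet the components of the boundary with the same multiplicities and the same leading
coefficients. -/
def Chart.Arc.Twin {c : Chart A M} {L L' : LF} (a : c.Arc L) (a' : c.Arc L') : Prop :=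
  ∃ (k : Type) (_ : Field k) (ρ : L.O →+* k) (ρ' : L'.O →+* k) (ϖ : L.O) (ϖ' : L'.O),
    Function.Surjective ρ ∧ Function.Surjective ρ' ∧ Irreducible ϖ ∧ Irreducible ϖ' ∧
    (∀ x, ρ (a.α x) = ρ' (a'.α x)) ∧
    ∀ i ∈ c.D, ∃ (v : ℕ) (u : L.O) (u' : L'.O), IsUnit u ∧ a.α (c.t i) = u * ϖ ^ v ∧
      a'.α (c.t i) = u' * ϖ' ^ v ∧ ρ u = ρ' u'

/-! ### Theories -/

/-- A cohomology theory for smooth proper schemes over local fields.  All the fields are known facts
for the `p`-adic cohomology (Hyodo-Kato cohomology in characteristic `0`).

* `H`: the cohomology, with the operators given by a Frobenius element and by the monodromy;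
* `iso`, `ext`: invariance under isomorphisms and finite extensions of the local field;
* `equal`: weight-monodromy in equal characteristic;
* `model`: good compactifications.  For a smooth proper scheme over a finitely generated domain `A`
  of characteristic `0` there are `g ≠ 0` in `A`, an integer `M > 0` and finitely many charts over
  `ℤ[1/M]` such that every point of `Spec A` with values in a local field of characteristic `0` and
  residue characteristic prime to `M`, at which `g` is not zero, comes after a finite extension from
  an arc in a chart, and such that the cohomology at an arc depends only on the closed point, the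
  multiplicities and the leading coefficients along the boundary. -/
structure Theory (Ω : Type) [Field Ω] [CharZero Ω] where
  /-- The cohomology. -/
  H : (L : LF) → Fam L.K → ℕ → FN L.q Ω
  iso : ∀ (L : LF) (Y Y' : Fam L.K), Y.Iso Y' → ∀ i, FN.Sim (H L Y i) (H L Y' i)
  ext : ∀ (L L' : LF) (e : L.Ext L') (Y : Fam L.K) (i : ℕ), FN.Sim (H L Y i) (H L' (Y.map e.κ) i)
  equal : ∀ (L : LF) (p : ℕ), p.Prime → (p : L.O) = 0 → ∀ (Y : Fam L.K) (i : ℕ),
    (H L Y i).WM i
  model : ∀ (A : Type) [CommRing A] [IsDomain A] [CharZero A] [Algebra.FiniteType ℤ A]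
    (X : Fam A), ∃ (g : A) (M : ℕ) (J : Type) (_ : Finite J) (c : J → Chart A M), g ≠ 0 ∧ 0 < M ∧
      (∀ (L : LF) (s : A →+* L.K), CharZero L.O → IsUnit (M : L.O) → s g ≠ 0 →
        ∃ (L' : LF) (e : L.Ext L') (j : J) (a : (c j).Arc L'), a.pt = e.κ.comp s) ∧
      ∀ (j : J) (L L' : LF) (a : (c j).Arc L) (a' : (c j).Arc L'), a.Twin a' →
        ∀ i, FN.Sim (H L (X.map a.pt) i) (H L' (X.map a'.pt) i)

end Pool.H9.AK

end
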