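import Pool.Agent.H9.AK.Sim

/-!
Transfer to power series fields outside finitely many residue characteristics (MP_d037d4_ag).
-/

noncomputable section

namespace Pool.H9.AK

open CategoryTheory CategoryTheory.Limits AlgebraicGeometry Pool.H9.WMC

variable {Ω : Type} [Field Ω] [CharZero Ω]

/-- The cohomology of `Y` is that of a fibre of `X` over a power series field. -/
def Tr (T : Theory Ω) {A : Type} [CommRing A] (X : Fam A) (L : LF) (Y : Fam L.K) : Prop :=
  ∃ (k : Type) (_ : Field k) (_ : Finite k) (s' : A →+* (LF.pow k).K),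
    ringChar k = ringChar L.k ∧
    ∀ i, FN.Sim (T.H L Y i) (T.H (LF.pow k) (X.map s') i)

theorem ringChar_residue {L L' : LF} (e : L.Ext L') : ringChar L'.k = ringChar L.k := by
  have : IsLocalHom e.φ := by
    have h1 : e.φ.IsIntegral := e.fin.to_isIntegral
    have hinj : Function.Injective e.φ := by
      intro x y hxy
      have h2 := congrArg (algebraMap L'.O L'.K) hxy
      have h3 : ∀ z, e.κ (algebraMap L.O L.K z) = algebraMap L'.O L'.K (e.φ z) := fun z =>
        congrArg (fun u => u z) e.comm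
      rw [← h3, ← h3] at h2
      exact IsFractionRing.injective L.O L.K (e.κ.injective h2)
    exact h1.isLocalHom hinj
  let j : L.k →+* L'.k := IsLocalRing.ResidueField.map e.φ
  have h2 : CharP L'.k (ringChar L.k) := (RingHom.charP_iff j j.injective _).1 (ringChar.charP L.k)
  exact ringChar.eq L'.k (ringChar L.k)

theorem tr_domain (T : Theory Ω) (A : Type) [CommRing A] [IsDomain A] [CharZero A]
    [Algebra.FiniteType ℤ A] (X : Fam A) : ∃ (g : A) (M : ℕ), g ≠ 0 ∧ 0 < M ∧
      ∀ (L : LF) (s : A →+* L.K), CharZero L.O → IsUnit (M : L.O) → s g ≠ 0 →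
        Tr T X L (X.map s) := by
  obtain ⟨g, M, J, _, c, hg, hM, hcov, hls⟩ := T.model A X
  refine ⟨g, M, hg, hM, fun L s h0 hu hs => ?_⟩
  obtain ⟨L', e, j, a, ha⟩ := hcov L s h0 hu hs
  obtain ⟨a', haa⟩ := twin (c j) L' a
  refine ⟨L'.k, inferInstance, inferInstance, a'.pt, ?_, fun i => ?_⟩
  · exact ringChar_residue e
  · have h1 := T.ext L L' e (X.map s) i
    have h2 := T.iso L' _ _ (X.map_map s e.κ) i
    rw [← ha] at h2
    exact (h1.trans h2).trans (hls j L' _ a a' haa i)

theorem Tr.iso {T : Theory Ω} {A : Type} [CommRing A] {X : Fam A} {L : LF} {Y Y' : Fam L.K}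
    (h : Tr T X L Y) (e : Y'.Iso Y) : Tr T X L Y' := by
  obtain ⟨k, h1, h2, s', h3, h4⟩ := h
  exact ⟨k, h1, h2, s', h3, fun i => (T.iso L _ _ e i).trans (h4 i)⟩

theorem Tr.of_map {T : Theory Ω} {A B : Type} [CommRing A] [CommRing B] {X : Fam A} {L : LF}
    {Y : Fam L.K} (φ : A →+* B) (h : Tr T (X.map φ) L Y) : Tr T X L Y := by
  obtain ⟨k, h1, h2, s', h3, h4⟩ := h
  exact ⟨k, h1, h2, s'.comp φ, h3, fun i =>
    (h4 i).trans (T.iso _ _ _ (X.map_map φ s') i)⟩

theorem ft_of_surj {A B : Type} [CommRing A] [CommRing B] [Algebra.FiniteType ℤ A] (φ : A →+* B)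
    (h : Function.Surjective φ) : Algebra.FiniteType ℤ B :=
  Algebra.FiniteType.of_surjective φ.toIntAlgHom h

/-- The statement for the points of the closed subscheme defined by `I`. -/
def Good (T : Theory Ω) {A : Type} [CommRing A] (X : Fam A) (I : Ideal A) : Prop :=
  ∃ B : ℕ, 0 < B ∧ ∀ (L : LF) (s : A →+* L.K), CharZero L.O → IsUnit (B : L.O) →
    (∀ x ∈ I, s x = 0) → Tr T X L (X.map s)

theorem good_all (T : Theory Ω) {A : Type} [CommRing A] [Algebra.FiniteType ℤ A] (X : Fam A)
    (I : Ideal A) : Good T X I := by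
  have : IsNoetherianRing A := Algebra.FiniteType.isNoetherianRing ℤ A
  induction I using IsNoetherian.induction with
  | _ I ih =>
  by_cases hp : Ideal.IsPrime I
  · by_cases hc : ∀ n : ℕ, (n : A) ∈ I → n = 0
    · have h0 : CharZero (A ⧸ I) := by
        refine charZero_of_inj_zero fun n hn => hc n ?_
        rwa [← map_natCast (Ideal.Quotient.mk I), Ideal.Quotient.eq_zero_iff_mem] at hn
      have h0' : IsDomain (A ⧸ I) := Ideal.Quotient.isDomain I
      have hft := ft_of_surj (Ideal.Quotient.mk I) Ideal.Quotient.mk_surjective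
      obtain ⟨g, M, hg, hM, h1⟩ := tr_domain T (A ⧸ I) (X.map (Ideal.Quotient.mk I))
      obtain ⟨a, rfl⟩ := Ideal.Quotient.mk_surjective g
      have ha : a ∉ I := fun h => hg (Ideal.Quotient.eq_zero_iff_mem.2 h)
      obtain ⟨B, hB, h2⟩ := ih (I ⊔ Ideal.span {a}) (by
        refine lt_of_le_of_ne le_sup_left fun h => ha ?_
        rw [h]
        exact Ideal.mem_sup_right (Ideal.mem_span_singleton_self a))
      refine ⟨M * B, Nat.mul_pos hM hB, fun L s hL hu hs => ?_⟩
      rw [Nat.cast_mul, IsUnit.mul_iff] at hu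
      by_cases hsa : s a = 0
      · refine h2 L s hL hu.2 fun x hx => ?_
        obtain ⟨y, hy, z, hz, rfl⟩ := Submodule.mem_sup.1 hx
        obtain ⟨w, rfl⟩ := Ideal.mem_span_singleton.1 hz
        rw [map_add, hs y hy, map_mul, hsa, zero_mul, add_zero]
      · have h3 := h1 L (Ideal.Quotient.lift I s hs) hL hu.1 (by
          rw [Ideal.Quotient.lift_mk]
          exact hsa)
        have h4 := X.map_map (Ideal.Quotient.mk I) (Ideal.Quotient.lift I s hs)
        have h5 : (Ideal.Quotient.lift I s hs).comp (Ideal.Quotient.mk I) = s := by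
          ext x
          simp
        rw [h5] at h4
        exact (h3.iso h4.symm).of_map
    · push Not at hc
      obtain ⟨n, hn, hn0⟩ := hc
      refine ⟨1, one_pos, fun L s hL _ hs => ?_⟩
      exfalso
      have h1 := hs _ hn
      rw [map_natCast] at h1
      have h2 : CharZero L.K := charZero_of_injective_algebraMap (IsFractionRing.injective L.O L.K)
      exact hn0 (Nat.cast_eq_zero.1 h1)
  · by_cases ht : I = ⊤
    · refine ⟨1, one_pos, fun L s _ _ hs => ?_⟩
      exfalso
      have h1 := hs 1 (by rw [ht]; trivial)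
      rw [map_one] at h1
      exact one_ne_zero h1
    · rw [Ideal.isPrime_iff] at hp
      push Not at hp
      obtain ⟨x, y, hxy, hx, hy⟩ := hp ht
      have key : ∀ z, z ∉ I → Good T X (I ⊔ Ideal.span {z}) := fun z hz => ih _ (by
        refine lt_of_le_of_ne le_sup_left fun h => hz ?_
        rw [h]
        exact Ideal.mem_sup_right (Ideal.mem_span_singleton_self z))
      obtain ⟨B, hB, h1⟩ := key x hx
      obtain ⟨C, hC, h2⟩ := key y hy
      refine ⟨B * C, Nat.mul_pos hB hC, fun L s hL hu hs => ?_⟩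
      rw [Nat.cast_mul, IsUnit.mul_iff] at hu
      have h3 : ∀ z, s z = 0 → ∀ u ∈ I ⊔ Ideal.span {z}, s u = 0 := by
        intro z hz u hu
        obtain ⟨y, hy, z, hz, rfl⟩ := Submodule.mem_sup.1 hu
        obtain ⟨w, rfl⟩ := Ideal.mem_span_singleton.1 hz
        rw [map_add, hs y hy, map_mul, ‹s _ = 0›, zero_mul, add_zero]
      rcases mul_eq_zero.1 ((map_mul s x y).symm.trans (hs _ hxy)) with h4 | h4
      · exact h1 L s hL hu.1 (h3 x h4)
      · exact h2 L s hL hu.2 (h3 y h4)

theorem tr_ring (T : Theory Ω) {A : Type} [CommRing A] [Algebra.FiniteType ℤ A] (X : Fam A) :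
    ∃ B : ℕ, 0 < B ∧ ∀ (L : LF) (s : A →+* L.K), CharZero L.O → IsUnit (B : L.O) →
      Tr T X L (X.map s) := by
  obtain ⟨B, hB, h⟩ := good_all T X ⊥
  exact ⟨B, hB, fun L s h0 hu => h L s h0 hu fun x hx => by
    rw [Ideal.mem_bot.1 hx, map_zero]⟩

end Pool.H9.AK

end
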