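import Pool.Agent.H9.AK.Main

/-!
The transfer for schemes of finite type over the integers (MP_d037d4_ag).
-/

noncomputable section

namespace Pool.H9.AK

open CategoryTheory CategoryTheory.Limits AlgebraicGeometry Pool.H9.WMC

variable {Ω : Type} [Field Ω] [CharZero Ω]

/-- A scheme of finite type over `ℤ`. -/
structure FinTypeZ (S : Scheme.{0}) : Prop where
  cpt : CompactSpace S
  ft : ∀ g : S ⟶ Spec (CommRingCat.of ℤ), LocallyOfFiniteType g

/-- The cohomology of `Y` is that of a fibre of `f` over a power series field. -/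
def TrS (T : Theory Ω) {S X : Scheme.{0}} (f : X ⟶ S) [Smooth f] [IsProper f] (L : LF)
    (Y : Fam L.K) : Prop :=
  ∃ (k : Type) (_ : Field k) (_ : Finite k) (s' : Spec (CommRingCat.of (LF.pow k).K) ⟶ S),
    ringChar k = ringChar L.k ∧
    ∀ i, FN.Sim (T.H L Y i) (T.H (LF.pow k) (fib f s') i)

theorem finiteType_int {A : Type} [CommRing A]
    (g : Spec (CommRingCat.of A) ⟶ Spec (CommRingCat.of ℤ)) [LocallyOfFiniteType g] :
    Algebra.FiniteType ℤ A := by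
  obtain ⟨φ, rfl⟩ := Spec.map_surjective g
  have h1 : φ.hom.FiniteType := (HasRingHomProperty.Spec_iff (P := @LocallyOfFiniteType)).1 ‹_›
  have h2 : φ.hom = algebraMap ℤ A := RingHom.ext_int _ _
  rw [h2] at h1
  exact RingHom.finiteType_algebraMap.1 h1

theorem lift_point {S U : Scheme.{0}} (j : U ⟶ S) [IsOpenImmersion j] {K : Type} [Field K]
    (s : Spec (CommRingCat.of K) ⟶ S)
    (h : s default ∈ Set.range j) : ∃ t : Spec (CommRingCat.of K) ⟶ U, t ≫ j = s := by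
  refine ⟨IsOpenImmersion.lift j s ?_, IsOpenImmersion.lift_fac j s _⟩
  rintro _ ⟨x, rfl⟩
  rwa [Subsingleton.elim x default]

theorem tr_sch (T : Theory Ω) {S X : Scheme.{0}} (f : X ⟶ S) [Smooth f] [IsProper f]
    (g : S ⟶ Spec (CommRingCat.of ℤ)) [CompactSpace S] [LocallyOfFiniteType g] :
    ∃ B : ℕ, 0 < B ∧ ∀ (L : LF) (s : Spec (CommRingCat.of L.K) ⟶ S), CharZero L.O →
      IsUnit (B : L.O) → TrS T f L (fib f s) := by
  let 𝒰 := S.affineCover.finiteSubcover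
  have hA : ∀ i : 𝒰.I₀, IsAffine (𝒰.X i) := fun i => inferInstance
  let R : 𝒰.I₀ → CommRingCat := fun i => Γ(𝒰.X i, ⊤)
  let j : ∀ i : 𝒰.I₀, Spec (CommRingCat.of (R i)) ⟶ S := fun i => (𝒰.X i).isoSpec.inv ≫ 𝒰.f i
  have h1 : ∀ i : 𝒰.I₀, ∃ B : ℕ, 0 < B ∧ ∀ (L : LF) (s : R i →+* L.K), CharZero L.O →
      IsUnit (B : L.O) → Tr T (fib f (j i)) L ((fib f (j i)).map s) := by
    intro i
    have h2 : Algebra.FiniteType ℤ (R i) := finiteType_int (j i ≫ g)
    exact tr_ring T (fib f (j i))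
  choose B hB h2 using h1
  refine ⟨∏ i, B i, Finset.prod_pos fun i _ => hB i, fun L s h0 hu => ?_⟩
  obtain ⟨i, y, hy⟩ := 𝒰.exists_eq (s default)
  have hu' : IsUnit (B i : L.O) := by
    rw [Nat.cast_prod] at hu
    exact isUnit_of_dvd_unit (Finset.dvd_prod_of_mem (fun i => (B i : L.O)) (Finset.mem_univ i)) hu
  obtain ⟨t, ht⟩ := lift_point (j i) s (by
    refine ⟨(𝒰.X i).isoSpec.hom y, ?_⟩
    rw [← hy]
    change ((𝒰.X i).isoSpec.hom ≫ (𝒰.X i).isoSpec.inv ≫ 𝒰.f i) y = _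
    rw [Iso.hom_inv_id_assoc])
  obtain ⟨φ, rfl⟩ := Spec.map_surjective t
  obtain ⟨k, hk1, hk2, s', h3, h4⟩ := h2 i L φ.hom h0 hu'
  refine ⟨k, hk1, hk2, Spec.map (CommRingCat.ofHom s') ≫ j i, h3, fun n => ?_⟩
  have h5 := fib_fib f (j i) (Spec.map φ)
  rw [ht] at h5
  have h6 := fib_fib f (j i) (Spec.map (CommRingCat.ofHom s'))
  exact ((T.iso _ _ _ h5.symm n).trans (h4 n)).trans (T.iso _ _ _ h6 n)

end Pool.H9.AK

end
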